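import Mathlib

namespace Pool.Agent.Lib.MP_b8791a_lc

def stepT (A g : ℕ → ℕ → Prop) (c s : ℕ) : Prop :=
  c = s ∨ (c < s ∧ (∀ c' < c, g c' c → g c' s) ∧
    (∀ c' < c, ∀ s' < s + 1, c < s' → g c' s' → g c' c) ∧
    (∀ c' < c, g c' c → ∀ i < c' + 1, ∀ s' < s, c ≤ s' → g c s' →
      (∃ t < s', c ≤ t ∧ A i t) → ∃ t < s, s' ≤ t ∧ A i t))

def Cut (T : ℕ → ℕ → Prop) (c : ℕ) : Prop := ∀ n, ∃ s, n ≤ s ∧ T c s

theorem exists_bound (Q : ℕ → ℕ → Prop) (hQ : ∀ i r r', r ≤ r' → Q i r → Q i r') (a : ℕ)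
    (h : ∀ i ≤ a, ∃ r, Q i r) : ∃ r, ∀ i ≤ a, Q i r := by
  induction a with
  | zero =>
    obtain ⟨r, hr⟩ := h 0 le_rfl
    exact ⟨r, fun i hi => by obtain rfl : i = 0 := by omega
                             exact hr⟩
  | succ a ih =>
    obtain ⟨r, hr⟩ := ih (fun i hi => h i (by omega))
    obtain ⟨r', hr'⟩ := h (a + 1) le_rfl
    refine ⟨max r r', fun i hi => ?_⟩
    rcases Nat.lt_or_ge i (a + 1) with h1 | h1
    · exact hQ i r _ (le_max_left _ _) (hr i (by omega))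
    · obtain rfl : i = a + 1 := by omega
      exact hQ _ r' _ (le_max_right _ _) hr'

section
variable {A T : ℕ → ℕ → Prop} (hT : ∀ c s, T c s ↔ stepT A T c s)
include hT

theorem T_refl (s : ℕ) : T s s := (hT s s).2 (Or.inl rfl)

theorem T_le {c s : ℕ} (h : T c s) : c ≤ s := by
  rcases (hT c s).1 h with h | h
  · exact h.le
  · exact h.1.le

theorem T_anc {b c s : ℕ} (h : T b s) (hc : c < b) (h' : T c b) : T c s := by
  rcases (hT b s).1 h with h | h
  · exact h ▸ h'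
  · exact h.2.1 c hc h'

theorem T_alive {b c s s' : ℕ} (h : T b s) (hc : c < b) (h1 : b ≤ s') (h2 : s' ≤ s)
    (h' : T c s') : T c b := by
  rcases Nat.eq_or_lt_of_le h1 with h1 | h1
  · exact h1 ▸ h'
  · rcases (hT b s).1 h with h | h
    · omega
    · exact h.2.2.1 c hc s' (by omega) h1 h'

theorem T_zero (s : ℕ) : T 0 s := by
  rw [hT]
  rcases Nat.eq_zero_or_pos s with h | h
  · exact Or.inl h.symm
  · refine Or.inr ⟨h, ?_, ?_, ?_⟩ <;> intro c' hc' <;> omega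

theorem cut_zero : Cut T 0 := fun n => ⟨n, le_rfl, T_zero hT n⟩

theorem cut_T {b c s : ℕ} (hb : Cut T b) (hc : c < b) (hs : b ≤ s) (h : T c s) : T c b := by
  obtain ⟨s'', h1, h2⟩ := hb s
  exact T_alive hT h2 hc hs h1 h

theorem cut_of_T {b c s : ℕ} (hb : Cut T b) (hc : c < b) (hs : b ≤ s) (h : T c s) : Cut T c := by
  have h0 := cut_T hT hb hc hs h
  intro n
  obtain ⟨s'', h1, h2⟩ := hb n
  exact ⟨s'', h1, T_anc hT h2 hc h0⟩

theorem cut_cut {b c : ℕ} (hb : Cut T b) (hc : Cut T c) (h : c < b) : T c b := by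
  obtain ⟨s, h1, h2⟩ := hc b
  exact cut_T hT hb h h1 h2

theorem cut_down {b c s : ℕ} (hb : Cut T b) (hc : Cut T c) (h : c ≤ b) (hs : T b s) : T c s := by
  rcases Nat.eq_or_lt_of_le h with h | h
  · exact h ▸ hs
  · exact T_anc hT hs h (cut_cut hT hb hc h)

theorem cut_act {a b i t : ℕ} (ha : Cut T a) (hb : Cut T b) (hab : a < b) (hi : i ≤ a)
    (ht : b ≤ t) (hA : A i t) : ∀ n, ∃ t', n ≤ t' ∧ A i t' := by
  intro n
  have hab' := cut_cut hT hb ha hab
  obtain ⟨s', h1, h2⟩ := hb (max n (t + 1))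
  obtain ⟨s, h3, h4⟩ := hb (s' + 1)
  have h1a : n ≤ s' := le_trans (le_max_left _ _) h1
  have h1b : t + 1 ≤ s' := le_trans (le_max_right _ _) h1
  rcases (hT b s).1 h4 with h | h
  · omega
  · obtain ⟨t', _, h6, h7⟩ := h.2.2.2 a hab hab' i (by omega) s' (by omega) (by omega) h2
      ⟨t, by omega, ht, hA⟩
    exact ⟨t', by omega, h7⟩

theorem cut_next {a : ℕ} (ha : Cut T a) : ∃ b, a < b ∧ Cut T b := by
  classical
  by_contra hcon
  have hno : ∀ c, a < c → ∃ n, ∀ s, n ≤ s → ¬ T c s := by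
    intro c hc
    by_contra h
    push Not at h
    exact hcon ⟨c, hc, h⟩
  obtain ⟨r, hr⟩ := exists_bound
    (fun i r => (∃ n, ∀ t, n ≤ t → ¬ A i t) → ∀ t, r ≤ t → ¬ A i t)
    (fun i r r' hrr h h' t ht => h h' t (by omega)) a (by
      intro i _
      by_cases h : ∃ n, ∀ t, n ≤ t → ¬ A i t
      · obtain ⟨n, hn⟩ := h
        exact ⟨n, fun _ => hn⟩
      · exact ⟨0, fun h' => absurd h' h⟩)
  obtain ⟨s1, hs1⟩ := exists_bound
    (fun c s1 => a < c → ∀ s, s1 ≤ s → ¬ T c s)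
    (fun i r r' hrr h h' t ht => h h' t (by omega)) r (by
      intro c _
      by_cases h : a < c
      · obtain ⟨n, hn⟩ := hno c h
        exact ⟨n, fun _ => hn⟩
      · exact ⟨0, fun h' => absurd h' h⟩)
  have hex : ∃ c, a < c ∧ ∃ s, s1 ≤ s ∧ T c s ∧ T a s := by
    obtain ⟨s, h1, h2⟩ := ha (max s1 (a + 1))
    exact ⟨s, by have := le_trans (le_max_right _ _) h1; omega, s,
      le_trans (le_max_left _ _) h1, T_refl hT s, h2⟩
  obtain ⟨hab, s2, hs2, hbs2, has2⟩ := Nat.find_spec hex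
  have hmin : ∀ c < Nat.find hex, ¬ (a < c ∧ ∃ s, s1 ≤ s ∧ T c s ∧ T a s) :=
    fun c hc => Nat.find_min hex hc
  generalize Nat.find hex = b at *
  have hbr : r < b := by
    by_contra h
    exact hs1 b (by omega) hab s2 hs2 hbs2
  have hbs : b ≤ s2 := T_le hT hbs2
  have hTab : T a b := T_alive hT hbs2 hab hbs le_rfl has2
  have k1 : ∀ c' < b, T c' b → c' ≤ a := by
    intro c' hc' h
    by_contra h'
    exact hmin c' hc' ⟨by omega, s2, hs2, T_anc hT hbs2 hc' h, has2⟩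
  have k2 : ∀ c' < b, ∀ s', b ≤ s' → T c' s' → T c' b := by
    intro c' hc' s' hs' h
    rcases Nat.lt_or_ge s2 s' with h1 | h1
    · rcases lt_trichotomy c' a with h2 | h2 | h2
      · exact T_anc hT hTab h2 (cut_T hT ha h2 (by omega) h)
      · exact h2 ▸ hTab
      · have h3 : T a c' := T_alive hT h h2 hc'.le hs' hTab
        exact absurd ⟨h2, s', by omega, h, T_anc hT h h2 h3⟩ (hmin c' hc')
    · exact T_alive hT hbs2 hc' hs' h1 h
  obtain ⟨n, hn⟩ := hno b hab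
  obtain ⟨m, hm⟩ := exists_bound
    (fun i m => (¬ ∃ n, ∀ t, n ≤ t → ¬ A i t) → ∃ t, n ≤ t ∧ t < m ∧ A i t)
    (fun i r r' hrr h h' => by
      obtain ⟨t, h1, h2, h3⟩ := h h'
      exact ⟨t, h1, by omega, h3⟩) a (by
      intro i _
      by_cases h : ∃ n, ∀ t, n ≤ t → ¬ A i t
      · exact ⟨0, fun h' => absurd h h'⟩
      · have h' := h
        push Not at h'
        obtain ⟨t, h1, h2⟩ := h' n
        exact ⟨t + 1, fun _ => ⟨t, h1, by omega, h2⟩⟩)
  obtain ⟨s, h1, h2⟩ := ha (max m (max n (b + 1)))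
  have h1a : m ≤ s := le_trans (le_max_left _ _) h1
  have h1b : n ≤ s := le_trans (le_trans (le_max_left _ _) (le_max_right _ _)) h1
  have h1c : b + 1 ≤ s := le_trans (le_trans (le_max_right _ _) (le_max_right _ _)) h1
  apply hn s h1b
  rw [hT]
  refine Or.inr ⟨by omega, ?_, ?_, ?_⟩
  · intro c' hc' h
    rcases Nat.eq_or_lt_of_le (k1 c' hc' h) with h3 | h3
    · exact h3 ▸ h2
    · exact T_anc hT h2 h3 (cut_T hT ha h3 hab.le h)
  · intro c' hc' s' _ hs' h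
    exact k2 c' hc' s' hs'.le h
  · rintro c' hc' h i hi s' hs' hbs' hTs' ⟨t, ht1, ht2, ht3⟩
    have hia : i ≤ a := by have := k1 c' hc' h; omega
    have hs'n : s' < n := by
      by_contra h'
      exact hn s' (by omega) hTs'
    have hinf : ¬ ∃ n, ∀ t, n ≤ t → ¬ A i t := fun h' => hr i hia h' t (by omega) ht3
    obtain ⟨t', h4, h5, h6⟩ := hm i hia hinf
    exact ⟨t', by omega, by omega, h6⟩

theorem cut_large (n : ℕ) : ∃ b, n ≤ b ∧ Cut T b := by
  induction n with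
  | zero => exact ⟨0, le_rfl, cut_zero hT⟩
  | succ n ih =>
    obtain ⟨b, h1, h2⟩ := ih
    obtain ⟨b', h3, h4⟩ := cut_next hT h2
    exact ⟨b', by omega, h4⟩

end

end Pool.Agent.Lib.MP_b8791a_lc
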