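import Pool.Agent.Lib.MP_b8791a_lc.Prim

namespace Pool.Agent.Lib.MP_b8791a_lc

open Classical

def RI (O : Set (ℕ →. ℕ)) (g : ℕ → ℕ) : Prop := Nat.RecursiveIn O (fun n => Part.some (g n))

section
variable {O : Set (ℕ →. ℕ)}

theorem RI.of_prim {g : ℕ → ℕ} (h : Primrec g) : RI O g :=
  (Primrec.nat_iff.1 h).recursiveIn

theorem RI.comp {g h : ℕ → ℕ} (hg : RI O g) (hh : RI O h) : RI O (fun n => g (h n)) :=
  (Nat.RecursiveIn.comp hg hh).of_eq (fun n => by simp)

theorem RI.pair {g h : ℕ → ℕ} (hg : RI O g) (hh : RI O h) :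
    RI O (fun n => Nat.pair (g n) (h n)) :=
  (Nat.RecursiveIn.pair hg hh).of_eq (fun n => by simp [Seq.seq])

theorem RI.iter {g : ℕ → ℕ} (hg : RI O g) (a : ℕ) : RI O (fun k => g^[k] a) := by
  have h1 : RI O (fun _ => a) := RI.of_prim (Primrec.const a)
  have h2 : RI O (fun n => g (Nat.unpair (Nat.unpair n).2).2) :=
    hg.comp (RI.of_prim (Primrec.snd.comp (Primrec.unpair.comp (Primrec.snd.comp Primrec.unpair))))
  have h3 := Nat.RecursiveIn.prec h1 h2
  have h4 : RI O (fun n => g^[(Nat.unpair n).2] a) := by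
    refine h3.of_eq (fun p => ?_)
    simp only
    induction (Nat.unpair p).2 with
    | zero => simp
    | succ n ih =>
      simp only [ih, Function.iterate_succ_apply']
      simp
  have h5 : RI O (fun k => Nat.pair 0 k) :=
    RI.of_prim (Primrec₂.natPair.comp (Primrec.const 0) Primrec.id)
  exact Nat.RecursiveIn.of_eq (h4.comp h5) (fun n => by simp)

theorem exists_H {f : ℕ → ℕ} (hf : RI O f) (x : ℕ) :
    ∃ H : ℕ → ℕ, RI O H ∧ ∀ m, ∀ j < 2 * NN m + 2, f^[j] x ≤ H m := by
  let g : ℕ → ℕ := fun σ => Nat.pair (f (Nat.unpair σ).1) ((Nat.unpair σ).2 + (Nat.unpair σ).1)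
  have hg : RI O g :=
    (hf.comp (RI.of_prim (Primrec.fst.comp Primrec.unpair))).pair
      (RI.of_prim (Primrec.nat_add.comp (Primrec.snd.comp Primrec.unpair)
        (Primrec.fst.comp Primrec.unpair)))
  have key : ∀ k, (Nat.unpair (g^[k] (Nat.pair x 0))).1 = f^[k] x ∧
      ∀ j < k, f^[j] x ≤ (Nat.unpair (g^[k] (Nat.pair x 0))).2 := by
    intro k
    induction k with
    | zero => simp
    | succ k ih =>
      rw [Function.iterate_succ_apply', Function.iterate_succ_apply']
      generalize g^[k] (Nat.pair x 0) = σ at ih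
      simp only [g, Nat.unpair_pair, ih.1, true_and]
      intro j hj
      rcases Nat.lt_or_ge j k with h | h
      · have := ih.2 j h; omega
      · obtain rfl : j = k := by omega
        omega
  refine ⟨fun m => (Nat.unpair (g^[2 * NN m + 2] (Nat.pair x 0))).2, ?_, fun m => (key _).2⟩
  refine (RI.of_prim (Primrec.snd.comp Primrec.unpair)).comp ((hg.iter _).comp (RI.of_prim ?_))
  exact Primrec.nat_add.comp (Primrec.nat_double.comp NN_prim) (Primrec.const 2)

end

def conv (e m s : ℕ) : Prop :=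
  ∀ n < m, (Nat.Partrec.Code.evaln s (Denumerable.ofNat Nat.Partrec.Code e) n).isSome = true

theorem conv_prim : PrimrecPred fun q : ℕ × ℕ × ℕ => conv q.1 q.2.1 q.2.2 := by
  unfold conv
  refine pall (Primrec.fst.comp Primrec.snd) ?_
  refine Primrec.eq.comp (Primrec.option_isSome.comp ?_) (Primrec.const true)
  exact Nat.Partrec.Code.primrec_evaln.comp
    (((Primrec.snd.comp (Primrec.snd.comp Primrec.fst)).pair
      ((Primrec.ofNat Nat.Partrec.Code).comp (Primrec.fst.comp Primrec.fst))).pair Primrec.snd)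

theorem conv_mono {e m s s' : ℕ} (h : s ≤ s') (hc : conv e m s) : conv e m s' := by
  intro n hn
  obtain ⟨x, hx⟩ := Option.isSome_iff_exists.1 (hc n hn)
  exact Option.isSome_iff_exists.2 ⟨x, Nat.Partrec.Code.evaln_mono h hx⟩

theorem conv_le {e m s : ℕ} (hc : conv e m s) : m ≤ s := by
  rcases m with _ | m
  · omega
  · obtain ⟨x, hx⟩ := Option.isSome_iff_exists.1 (hc m (by omega))
    have := Nat.Partrec.Code.evaln_bound hx
    omega

theorem conv_dom {e m s n : ℕ} (hc : conv e m s) (hn : n < m) :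
    (Nat.Partrec.Code.eval (Denumerable.ofNat Nat.Partrec.Code e) n).Dom := by
  obtain ⟨x, hx⟩ := Option.isSome_iff_exists.1 (hc n hn)
  exact Part.dom_iff_mem.2 ⟨x, Nat.Partrec.Code.evaln_sound hx⟩

theorem conv_of_tot {e : ℕ}
    (h : ∀ n, (Nat.Partrec.Code.eval (Denumerable.ofNat Nat.Partrec.Code e) n).Dom) (m : ℕ) :
    ∃ s, conv e m s := by
  obtain ⟨s, hs⟩ := exists_bound
    (fun n s => (Nat.Partrec.Code.evaln s (Denumerable.ofNat Nat.Partrec.Code e) n).isSome = true)
    (fun n r r' hr h1 => by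
      obtain ⟨x, hx⟩ := Option.isSome_iff_exists.1 h1
      exact Option.isSome_iff_exists.2 ⟨x, Nat.Partrec.Code.evaln_mono hr hx⟩) m (by
      intro n _
      obtain ⟨x, hx⟩ := Part.dom_iff_mem.1 (h n)
      obtain ⟨k, hk⟩ := Nat.Partrec.Code.evaln_complete.1 hx
      exact ⟨k, Option.isSome_iff_exists.2 ⟨x, hk⟩⟩)
  exact ⟨s, fun n hn => hs n hn.le⟩

theorem conv_step {e m s s' : ℕ} (h1 : ¬ conv e m s) (h2 : conv e m s') :
    ∃ t, s ≤ t ∧ conv e m (t + 1) ∧ ¬ conv e m t := by
  induction s' with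
  | zero => exact absurd (conv_mono (Nat.zero_le _) h2) h1
  | succ s' ih =>
    by_cases h : conv e m s'
    · exact ih h
    · refine ⟨s', ?_, h2, h⟩
      by_contra h3
      exact h1 (conv_mono (by omega) h2)

def act (i s : ℕ) : Prop :=
  ∃ m < s + 2, ((Nat.unpair i).2 = 0 ∨ m + 1 = (Nat.unpair i).2) ∧
    conv (Nat.unpair i).1 m (s + 1) ∧ ¬ conv (Nat.unpair i).1 m s

theorem act_prim : PrimrecRel act := by
  unfold act PrimrecRel
  have e1 : Primrec fun q : (ℕ × ℕ) × ℕ => (Nat.unpair q.1.1).1 :=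
    Primrec.fst.comp (Primrec.unpair.comp (Primrec.fst.comp Primrec.fst))
  have e2 : Primrec fun q : (ℕ × ℕ) × ℕ => (Nat.unpair q.1.1).2 :=
    Primrec.snd.comp (Primrec.unpair.comp (Primrec.fst.comp Primrec.fst))
  refine pex (psucc (psucc Primrec.snd)) (PrimrecPred.and (PrimrecPred.or ?_ ?_)
    (PrimrecPred.and ?_ (PrimrecPred.not ?_)))
  · exact peq e2 (Primrec.const 0)
  · exact peq (psucc Primrec.snd) e2
  · exact prel3 conv_prim e1 Primrec.snd (psucc (Primrec.snd.comp Primrec.fst))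
  · exact prel3 conv_prim e1 Primrec.snd (Primrec.snd.comp Primrec.fst)

theorem decode {B : ℕ → ℕ} (hB : ∀ i t, B i ≤ t → act i t → ∀ n, ∃ t', n ≤ t' ∧ act i t')
    (e : ℕ) : (∀ n, (Nat.Partrec.Code.eval (Denumerable.ofNat Nat.Partrec.Code e) n).Dom) ↔
      conv e (B (Nat.pair e 0) + 1) (B (Nat.pair e (B (Nat.pair e 0) + 1 + 1))) := by
  generalize hm : B (Nat.pair e 0) + 1 = m
  constructor
  · intro h
    obtain ⟨s, hs⟩ := conv_of_tot h m
    by_contra hc
    obtain ⟨t, h1, h2, h3⟩ := conv_step hc hs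
    have := conv_le h2
    obtain ⟨t', h4, m', _, h6, _, h8⟩ := hB (Nat.pair e (m + 1)) t h1
      ⟨m, by omega, by simp, by simpa using h2, by simpa using h3⟩ (t + 1)
    simp only [Nat.unpair_pair] at h6 h8
    obtain rfl : m' = m := by omega
    exact h8 (conv_mono h4 h2)
  · intro h
    by_contra hc
    push Not at hc
    obtain ⟨n0, hn0⟩ := hc
    have h0 : ¬ conv e m (B (Nat.pair e 0)) := fun h' => by
      have := conv_le h'
      omega
    obtain ⟨t, h1, h2, h3⟩ := conv_step h0 h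
    have := conv_le h2
    obtain ⟨S, hS⟩ := exists_bound (fun m' S => (∃ s, conv e m' s) → conv e m' S)
      (fun i r r' hr h1 h2 => conv_mono hr (h1 h2)) n0 (by
        intro i _
        by_cases h4 : ∃ s, conv e i s
        · obtain ⟨s, hs⟩ := h4
          exact ⟨s, fun _ => hs⟩
        · exact ⟨0, fun h5 => absurd h5 h4⟩)
    obtain ⟨t', h4, m', _, _, h7, h8⟩ := hB (Nat.pair e 0) t h1
      ⟨m, by omega, by simp, by simpa using h2, by simpa using h3⟩ S
    simp only [Nat.unpair_pair] at h7 h8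
    have hm' : m' ≤ n0 := by
      by_contra h9
      exact hn0 (conv_dom h7 (by omega))
    exact h8 (conv_mono h4 (hS m' hm' ⟨_, h7⟩))

theorem main :
    ∃ R : ℕ → ℕ → Prop,
      (∀ a, ¬ R a a) ∧
      (∀ a b c, R a b → R b c → R a c) ∧
      (∀ a b, R a b ∨ a = b ∨ R b a) ∧
      ComputablePred (fun p : ℕ × ℕ => R p.1 p.2) ∧
      ∀ f : ℕ → ℕ,
        (∀ a b, R a b ↔ R (f a) (f b)) →
        (∃ a, f a ≠ a) →
        TuringReducible
          (fun e : ℕ => Part.some
            (if ∀ n : ℕ, (Nat.Partrec.Code.eval (Denumerable.ofNat Nat.Partrec.Code e) n).Dom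
             then 1 else 0))
          (fun n : ℕ => Part.some (f n)) := by
  obtain ⟨T, hTp, hT⟩ := exists_T act_prim
  obtain ⟨pos, hpp, hinj, hp1, hp2⟩ := exists_pos hTp
  refine ⟨fun u v => pos u < pos v, fun a => lt_irrefl _, fun a b c => lt_trans, ?_,
    PrimrecPred.computablePred hpp, ?_⟩
  · intro a b
    rcases lt_trichotomy (pos a) (pos b) with h | h | h
    · exact Or.inl h
    · exact Or.inr (Or.inl (hinj h))
    · exact Or.inr (Or.inr h)
  · intro f hf hne
    obtain ⟨x, hx⟩ := orbit_bound hT hinj hp1 hp2 hf hne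
    have hfo : RI {fun n : ℕ => Part.some (f n)} f := Nat.RecursiveIn.oracle _ rfl
    obtain ⟨H, hH, hH'⟩ := exists_H hfo x
    have hcut : ∀ m, ∃ c, Cut T c ∧ m < c ∧ c ≤ H m := by
      intro m
      obtain ⟨j, hj, c, h1, h2, h3⟩ := hx m
      exact ⟨c, h1, h2, le_trans h3 (hH' m j hj)⟩
    have hB : ∀ i t, H (H i) ≤ t → act i t → ∀ n, ∃ t', n ≤ t' ∧ act i t' := by
      intro i t ht hA
      obtain ⟨a, ha, ha1, ha2⟩ := hcut i
      obtain ⟨b, hb, hb1, hb2⟩ := hcut (H i)
      exact cut_act hT ha hb (by omega) ha1.le (by omega) hA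
    have hBr : RI {fun n : ℕ => Part.some (f n)} (fun i => H (H i)) := hH.comp hH
    have hid : RI {fun n : ℕ => Part.some (f n)} (fun i => i) := RI.of_prim Primrec.id
    have hsucc : RI {fun n : ℕ => Part.some (f n)} (fun i => i + 1) := RI.of_prim Primrec.succ
    have hm : RI {fun n : ℕ => Part.some (f n)} (fun e => H (H (Nat.pair e 0)) + 1) :=
      hsucc.comp (hBr.comp (hid.pair (RI.of_prim (Primrec.const 0))))
    have hs : RI {fun n : ℕ => Part.some (f n)}
        (fun e => H (H (Nat.pair e (H (H (Nat.pair e 0)) + 1 + 1)))) :=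
      hBr.comp (hid.pair (hsucc.comp hm))
    have hfin : RI {fun n : ℕ => Part.some (f n)} (fun q => if conv (Nat.unpair q).1
        (Nat.unpair (Nat.unpair q).2).1 (Nat.unpair (Nat.unpair q).2).2 then 1 else 0) := by
      refine RI.of_prim (Primrec.ite ?_ (Primrec.const 1) (Primrec.const 0))
      exact prel3 conv_prim (Primrec.fst.comp Primrec.unpair)
        (Primrec.fst.comp (Primrec.unpair.comp (Primrec.snd.comp Primrec.unpair)))
        (Primrec.snd.comp (Primrec.unpair.comp (Primrec.snd.comp Primrec.unpair)))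
    have hall := hfin.comp (hid.pair (hm.pair hs))
    refine RecursiveIn.iff_nat.2 (Nat.RecursiveIn.of_eq hall (fun e => ?_))
    simp only [Nat.unpair_pair]
    rw [← decode (B := fun i => H (H i)) hB e]

end Pool.Agent.Lib.MP_b8791a_lc
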