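import Pool.Agent.Lib.MP_b8791a_lc.Cuts

namespace Pool.Agent.Lib.MP_b8791a_lc

open Classical

def NN (s : ℕ) : ℕ := s * s + 1

theorem NN_mono {a b : ℕ} (h : a ≤ b) : NN a ≤ NN b := by
  unfold NN
  have := Nat.mul_le_mul h h
  omega

theorem lt_NN (a : ℕ) : a < NN a := by
  unfold NN
  have := Nat.le_mul_self a
  omega

def blocked (T lt : ℕ → ℕ → Prop) (s x : ℕ) : Prop :=
  ∃ y < NN s, lt x y ∧ ∀ c < s + 1, T c s → (NN c ≤ x ∨ NN c ≤ y) →
    ∀ z < NN c, lt z x ∨ lt y z

def stg (n : ℕ) : ℕ := max (Nat.unpair (n - 1)).1 (Nat.unpair (n - 1)).2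

def tgt (n : ℕ) : ℕ := min (Nat.unpair (n - 1)).1 (Nat.unpair (n - 1)).2

theorem tgt_le_stg (n : ℕ) : tgt n ≤ stg n := min_le_max

theorem NN_stg_le {n : ℕ} (h : 0 < n) : NN (stg n) ≤ n := by
  have := Nat.max_sq_add_min_le_pair (Nat.unpair (n - 1)).1 (Nat.unpair (n - 1)).2
  rw [Nat.pair_unpair] at this
  unfold NN stg
  rw [pow_two] at this
  omega

theorem lt_NN_stg {n : ℕ} (h : 0 < n) : n < NN (stg n + 1) := by
  have := Nat.pair_lt_max_add_one_sq (Nat.unpair (n - 1)).1 (Nat.unpair (n - 1)).2
  rw [Nat.pair_unpair] at this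
  unfold NN stg
  rw [pow_two] at this
  omega

theorem le_stg {n b : ℕ} (h : NN b ≤ n) : b ≤ stg n := by
  have h0 : 0 < n := by have := lt_NN b; omega
  have h1 := lt_NN_stg h0
  by_contra h2
  have := NN_mono (show stg n + 1 ≤ b by omega)
  omega

theorem stg_pair {s x : ℕ} (h : x ≤ s) : stg (Nat.pair s x + 1) = s := by
  simp [stg, h]

theorem tgt_pair {s x : ℕ} (h : x ≤ s) : tgt (Nat.pair s x + 1) = x := by
  simp [tgt, h]

noncomputable def parOf (T lt : ℕ → ℕ → Prop) (n : ℕ) : ℕ :=
  if blocked T lt (stg n) (tgt n) then 0 else tgt n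

theorem parOf_lt (T lt : ℕ → ℕ → Prop) {n : ℕ} (h : 0 < n) : parOf T lt n < n := by
  unfold parOf
  split_ifs
  · exact h
  · have h1 := tgt_le_stg n
    have h2 := NN_stg_le h
    have h3 := lt_NN (stg n)
    omega

def tied (T : ℕ → ℕ → Prop) (pos : ℕ → ℚ) (x y : ℕ) : Prop :=
  ∀ c, Cut T c → (NN c ≤ x ∨ NN c ≤ y) → ∀ z < NN c, pos z < pos x ∨ pos y < pos z

section
variable {A T : ℕ → ℕ → Prop} (hT : ∀ c s, T c s ↔ stepT A T c s)
  {pos : ℕ → ℚ} (hinj : Function.Injective pos)
  (hp1 : ∀ n, 0 < n → pos (parOf T (fun u v => pos u < pos v) n) < pos n)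
  (hp2 : ∀ n, 0 < n → ∀ y < n, pos y < pos n →
    pos y ≤ pos (parOf T (fun u v => pos u < pos v) n))
include hT hinj hp1 hp2

theorem tied_bound {x y b : ℕ} (hxy : pos x < pos y) (h : tied T pos x y) (hb0 : Cut T b)
    (hxb0 : x < NN b) (hyb0 : y < NN b) :
    ∀ v, pos x < pos v → pos v < pos y → v < NN b := by
  have hex : ∃ b, Cut T b ∧ x < NN b ∧ y < NN b := ⟨b, hb0, hxb0, hyb0⟩
  obtain ⟨hb, hxb, hyb⟩ := Nat.find_spec hex
  have hmin : ∀ c < Nat.find hex, ¬ (Cut T c ∧ x < NN c ∧ y < NN c) :=
    fun c hc => Nat.find_min hex hc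
  have hle : Nat.find hex ≤ b := Nat.find_min' hex ⟨hb0, hxb0, hyb0⟩
  generalize Nat.find hex = b' at *
  suffices key : ∀ v, pos x < pos v → pos v < pos y → v < NN b' from
    fun v h1 h2 => lt_of_lt_of_le (key v h1 h2) (NN_mono hle)
  clear hle hb0 hxb0 hyb0 b
  have hxy0 : NN 0 ≤ x ∨ NN 0 ≤ y := by
    by_contra h'
    unfold NN at h'
    have : x = y := by omega
    rw [this] at hxy
    exact lt_irrefl _ hxy
  intro v
  induction v using Nat.strong_induction_on with
  | _ v ih =>
    intro h1 h2
    by_contra hv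
    have hv' : NN b' ≤ v := by omega
    have hv0 : 0 < v := by omega
    have hpl := parOf_lt T (fun u v => pos u < pos v) hv0
    have hp1' := hp1 v hv0
    have hp2' := hp2 v hv0 x (by omega) h1
    set p := parOf T (fun u v => pos u < pos v) v with hp
    have hpb : p < NN b' := by
      rcases eq_or_lt_of_le hp2' with h3 | h3
      · rw [← hinj h3]; exact hxb
      · exact ih p hpl h3 (lt_trans hp1' h2)
    have hsb : b' ≤ stg v := le_stg hv'
    have hbl : blocked T (fun u v => pos u < pos v) (stg v) p := by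
      refine ⟨y, lt_of_lt_of_le hyb (NN_mono hsb), lt_trans hp1' h2, ?_⟩
      intro c _ hc hcp z hz
      have hcb : c < b' := by
        by_contra h3
        have := NN_mono (show b' ≤ c by omega)
        omega
      have hcut : Cut T c := cut_of_T hT hb hcb hsb hc
      have h4 : NN c ≤ x ∨ NN c ≤ y := by
        by_contra h4
        exact hmin c hcb ⟨hcut, by omega, by omega⟩
      rcases h c hcut h4 z hz with h5 | h5
      · exact Or.inl (lt_of_lt_of_le h5 hp2')
      · exact Or.inr h5
    have hp0 : p = 0 := by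
      by_cases h3 : blocked T (fun u v => pos u < pos v) (stg v) (tgt v)
      · rw [hp]; unfold parOf; rw [if_pos h3]
      · have : p = tgt v := by rw [hp]; unfold parOf; rw [if_neg h3]
        rw [this] at hbl
        exact absurd hbl h3
    rw [hp0] at hp1' hp2'
    rcases h 0 (cut_zero hT) hxy0 0 (lt_NN 0) with h5 | h5
    · linarith
    · linarith

theorem tied_finite {x y : ℕ} (hxy : pos x < pos y) (h : tied T pos x y) :
    {v | pos x < pos v ∧ pos v < pos y}.Finite := by
  obtain ⟨b, h1, h2⟩ := cut_large hT (max x y)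
  have := lt_NN b
  exact (Set.finite_lt_nat (NN b)).subset (fun v hv => tied_bound hT hinj hp1 hp2 hxy h h2
    (by have := le_max_left x y; omega) (by have := le_max_right x y; omega) v hv.1 hv.2)

theorem not_tied_unblocked {x y : ℕ} (hxy : pos x < pos y) (h : ¬ tied T pos x y) :
    ∃ m b, pos x ≤ pos m ∧ pos m < pos y ∧ Cut T b ∧
      ∀ s, T b s → ¬ blocked T (fun u v => pos u < pos v) s m := by
  obtain ⟨b, hb1, hb⟩ := cut_large hT (max x y)
  have hxb : x < NN b := by have := lt_NN b; have := le_max_left x y; omega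
  have hyb : y < NN b := by have := lt_NN b; have := le_max_right x y; omega
  have hfin : ∃ m ∈ (Finset.range (NN b)).filter (fun m => m = x ∨ (pos x < pos m ∧ tied T pos x m)),
      ∀ m' ∈ (Finset.range (NN b)).filter (fun m => m = x ∨ (pos x < pos m ∧ tied T pos x m)),
        pos m' ≤ pos m :=
    Finset.exists_max_image _ pos ⟨x, by simp [hxb]⟩
  obtain ⟨m, hm1, hm2⟩ := hfin
  simp only [Finset.mem_filter, Finset.mem_range] at hm1 hm2
  have hxm : pos x ≤ pos m := by
    rcases hm1.2 with h1 | h1
    · rw [h1]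
    · exact h1.1.le
  have hmy : pos m < pos y := by
    by_contra h1
    have h1 : pos y ≤ pos m := not_lt.1 h1
    rcases hm1.2 with h2 | h2
    · rw [h2] at h1; linarith
    · apply h
      intro c hc hcxy z hz
      by_contra h3
      push Not at h3
      by_cases h4 : NN c ≤ x ∨ NN c ≤ m
      · rcases h2.2 c hc h4 z hz with h5 | h5
        · linarith [h3.1]
        · linarith [h3.2]
      · have hcy : NN c ≤ y := by omega
        have hym : pos y < pos m := by
          rcases eq_or_lt_of_le h1 with h5 | h5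
          · have := hinj h5; omega
          · exact h5
        have := tied_bound hT hinj hp1 hp2 h2.1 h2.2 hc (by omega) (by omega) y hxy hym
        omega
  refine ⟨m, b, hxm, hmy, hb, ?_⟩
  rintro s hs ⟨y', hy1, hy2, hy3⟩
  have hbs := T_le hT hs
  have hy'b : y' < NN b := by
    by_contra h1
    rcases hy3 b (by omega) hs (Or.inr (by omega)) m hm1.1 with h2 | h2
    · exact lt_irrefl _ h2
    · exact lt_asymm h2 hy2
  have htm : tied T pos m y' := by
    intro c hc hcm z hz
    have hcb : c ≤ b := by
      by_contra h1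
      have := NN_mono (show b ≤ c by omega)
      omega
    exact hy3 c (by omega) (cut_down hT hb hc hcb hs) hcm z hz
  have htx : tied T pos x y' := by
    rcases hm1.2 with h1 | h1
    · rw [← h1]; exact htm
    · intro c hc hcx z hz
      have hcm : NN c ≤ m := by
        by_contra h2
        rcases hcx with h3 | h3
        · rcases h1.2 c hc (Or.inl h3) m (by omega) with h4 | h4
          · linarith
          · exact lt_irrefl _ h4
        · rcases htm c hc (Or.inr h3) m (by omega) with h4 | h4
          · exact lt_irrefl _ h4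
          · linarith
      rcases h1.2 c hc (Or.inr hcm) z hz with h2 | h2
      · exact Or.inl h2
      · rcases htm c hc (Or.inl hcm) z hz with h3 | h3
        · linarith
        · exact Or.inr h3
  have := hm2 y' ⟨hy'b, Or.inr ⟨lt_of_le_of_lt hxm hy2, htx⟩⟩
  linarith

theorem not_tied_infinite {x y : ℕ} (hxy : pos x < pos y) (h : ¬ tied T pos x y) :
    {v | pos x < pos v ∧ pos v < pos y}.Infinite := by
  obtain ⟨m, b, h1, h2, hb, h3⟩ := not_tied_unblocked hT hinj hp1 hp2 hxy h
  refine Set.infinite_of_forall_exists_gt (fun n => ?_)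
  obtain ⟨s, hs1, hs2⟩ := hb (max m (max n y))
  have hms : m ≤ s := le_trans (le_max_left _ _) hs1
  have hns : n ≤ s := le_trans (le_trans (le_max_left _ _) (le_max_right _ _)) hs1
  have hys : y ≤ s := le_trans (le_trans (le_max_right _ _) (le_max_right _ _)) hs1
  have hle := Nat.left_le_pair s m
  have hpar : parOf T (fun u v => pos u < pos v) (Nat.pair s m + 1) = m := by
    unfold parOf
    rw [stg_pair hms, tgt_pair hms, if_neg (h3 s hs2)]
  have a1 := hp1 (Nat.pair s m + 1) (by omega)
  have a2 := hp2 (Nat.pair s m + 1) (by omega) y (by omega)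
  rw [hpar] at a1 a2
  refine ⟨Nat.pair s m + 1, ⟨by linarith, ?_⟩, by omega⟩
  rcases lt_trichotomy (pos (Nat.pair s m + 1)) (pos y) with h4 | h4 | h4
  · exact h4
  · have := hinj h4; omega
  · have := a2 h4; linarith

theorem not_tied_map {f : ℕ → ℕ} (hf : ∀ a b, pos a < pos b ↔ pos (f a) < pos (f b))
    {x y : ℕ} (hxy : pos x < pos y) (h : ¬ tied T pos x y) : ¬ tied T pos (f x) (f y) := by
  intro h'
  have hfin := tied_finite hT hinj hp1 hp2 ((hf x y).1 hxy) h'
  have hinf := not_tied_infinite hT hinj hp1 hp2 hxy h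
  have hfi : Function.Injective f := by
    intro a b hab
    apply hinj
    rcases lt_trichotomy (pos a) (pos b) with h1 | h1 | h1
    · have := (hf a b).1 h1; rw [hab] at this; exact absurd this (lt_irrefl _)
    · exact h1
    · have := (hf b a).1 h1; rw [hab] at this; exact absurd this (lt_irrefl _)
  apply hinf
  refine Set.Finite.of_finite_image (f := f) (hfin.subset ?_) hfi.injOn
  rintro _ ⟨v, hv, rfl⟩
  exact ⟨(hf _ _).1 hv.1, (hf _ _).1 hv.2⟩

omit hinj hp1 hp2 in
theorem exists_cross {a : ℕ → ℕ} (ha : Function.Injective a) :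
    ∃ n b, Cut T b ∧ a n < NN b ∧ NN b ≤ a (n + 1) := by
  obtain ⟨b, hb1, hb⟩ := cut_large hT (a 0)
  have h0 : a 0 < NN b := lt_of_le_of_lt hb1 (lt_NN b)
  have hex : ∃ n, NN b ≤ a n := by
    by_contra h
    push Not at h
    have : (Set.range a).Finite := (Set.finite_lt_nat (NN b)).subset (by
      rintro _ ⟨n, rfl⟩; exact h n)
    exact Set.infinite_range_of_injective ha this
  have h1 := Nat.find_spec hex
  have h2 : ∀ n < Nat.find hex, ¬ NN b ≤ a n := fun n hn => Nat.find_min hex hn
  generalize Nat.find hex = k at *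
  rcases k with _ | k
  · omega
  · exact ⟨k, b, hb, by have := h2 k (by omega); omega, h1⟩

omit hT hinj hp1 hp2 in
theorem pigeon (m : ℕ) (u v : ℕ → ℕ) (h : ∀ k, ¬ tied T pos (u k) (v k))
    (hd : ∀ k k' z, k < k' → pos (u k) ≤ pos z → pos z ≤ pos (v k) →
      pos (u k') ≤ pos z → pos z ≤ pos (v k') → False) :
    ∃ k ≤ NN m, ∃ c, Cut T c ∧ m < c ∧ (NN c ≤ u k ∨ NN c ≤ v k) := by
  by_contra hcon
  push Not at hcon
  have hz : ∀ k, ∃ z, k ≤ NN m → z < NN m ∧ pos (u k) ≤ pos z ∧ pos z ≤ pos (v k) := by
    intro k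
    by_cases hk : k ≤ NN m
    · have h1 := h k
      unfold tied at h1
      push Not at h1
      obtain ⟨c, hc, h2, z, hz, h3⟩ := h1
      have hcm : c ≤ m := by
        by_contra h4
        have := hcon k hk c hc (by omega)
        omega
      exact ⟨z, fun _ => ⟨lt_of_lt_of_le hz (NN_mono hcm), h3⟩⟩
    · exact ⟨0, fun h' => absurd h' hk⟩
  choose z hz using hz
  have hcard : (Finset.range (NN m)).card < (Finset.range (NN m + 1)).card := by simp
  obtain ⟨k, hk, k', hk', hne, heq⟩ := Finset.exists_ne_map_eq_of_card_lt_of_maps_to hcard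
    (f := z) (fun k hk => by
      simp only [Finset.coe_range, Set.mem_Iio] at hk ⊢
      exact (hz k (by omega)).1)
  simp only [Finset.mem_range] at hk hk'
  have a1 := hz k (by omega)
  have a2 := hz k' (by omega)
  rw [← heq] at a2
  rcases lt_or_gt_of_ne hne with h1 | h1
  · exact hd k k' (z k) h1 a1.2.1 a1.2.2 a2.2.1 a2.2.2
  · exact hd k' k (z k) h1 a2.2.1 a2.2.2 a1.2.1 a1.2.2

theorem orbit_bound {f : ℕ → ℕ} (hf : ∀ a b, pos a < pos b ↔ pos (f a) < pos (f b))
    (hne : ∃ a, f a ≠ a) :
    ∃ x, ∀ m, ∃ j < 2 * NN m + 2, ∃ c, Cut T c ∧ m < c ∧ c ≤ f^[j] x := by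
  obtain ⟨a, ha⟩ := hne
  rcases lt_trichotomy (pos a) (pos (f a)) with h1 | h1 | h1
  · have hstep : ∀ n, pos (f^[n] a) < pos (f^[n + 1] a) := by
      intro n
      induction n with
      | zero => simpa using h1
      | succ n ih =>
        rw [Function.iterate_succ_apply' f (n + 1), Function.iterate_succ_apply' f n]
        rw [Function.iterate_succ_apply' f n] at ih
        exact (hf _ _).1 ih
    have hmono : StrictMono (fun n => pos (f^[n] a)) := strictMono_nat_of_lt_succ hstep
    have hi : Function.Injective (fun n => f^[n] a) := fun i j hij =>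
      hmono.injective (by simp only at hij ⊢; rw [hij])
    obtain ⟨n, b, hb, h2, h3⟩ := exists_cross hT hi
    have hnt : ∀ k, ¬ tied T pos (f^[n + k] a) (f^[n + k + 1] a) := by
      intro k
      induction k with
      | zero =>
        intro h
        rcases h b hb (Or.inr h3) _ h2 with h4 | h4
        · exact lt_irrefl _ h4
        · exact lt_asymm h4 (hstep n)
      | succ k ih =>
        have := not_tied_map hT hinj hp1 hp2 hf (hstep (n + k)) ih
        rw [← Function.iterate_succ_apply' f, ← Function.iterate_succ_apply' f] at this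
        exact this
    refine ⟨f^[n] a, fun m => ?_⟩
    obtain ⟨k, hk, c, hc, hmc, h4⟩ := pigeon (T := T) (pos := pos) m (fun k => f^[n + 2 * k] a)
      (fun k => f^[n + 2 * k + 1] a) (fun k => hnt (2 * k)) (by
        intro k k' z hkk _ a2 a3 _
        have := hmono (show n + 2 * k + 1 < n + 2 * k' by omega)
        simp only at this a2 a3
        linarith)
    have := lt_NN c
    rcases h4 with h4 | h4
    · refine ⟨2 * k, by omega, c, hc, hmc, ?_⟩
      rw [← Function.iterate_add_apply, add_comm]
      omega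
    · refine ⟨2 * k + 1, by omega, c, hc, hmc, ?_⟩
      rw [← Function.iterate_add_apply, add_comm, ← add_assoc]
      omega
  · exact absurd (hinj h1).symm ha
  · have hstep : ∀ n, pos (f^[n + 1] a) < pos (f^[n] a) := by
      intro n
      induction n with
      | zero => simpa using h1
      | succ n ih =>
        rw [Function.iterate_succ_apply' f (n + 1), Function.iterate_succ_apply' f n]
        rw [Function.iterate_succ_apply' f n] at ih
        exact (hf _ _).1 ih
    have hmono : StrictAnti (fun n => pos (f^[n] a)) := strictAnti_nat_of_succ_lt hstep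
    have hi : Function.Injective (fun n => f^[n] a) := fun i j hij =>
      hmono.injective (by simp only at hij ⊢; rw [hij])
    obtain ⟨n, b, hb, h2, h3⟩ := exists_cross hT hi
    have hnt : ∀ k, ¬ tied T pos (f^[n + k + 1] a) (f^[n + k] a) := by
      intro k
      induction k with
      | zero =>
        intro h
        rcases h b hb (Or.inl h3) _ h2 with h4 | h4
        · exact lt_asymm h4 (hstep n)
        · exact lt_irrefl _ h4
      | succ k ih =>
        have := not_tied_map hT hinj hp1 hp2 hf (hstep (n + k)) ih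
        rw [← Function.iterate_succ_apply' f, ← Function.iterate_succ_apply' f] at this
        exact this
    refine ⟨f^[n] a, fun m => ?_⟩
    obtain ⟨k, hk, c, hc, hmc, h4⟩ := pigeon (T := T) (pos := pos) m (fun k => f^[n + 2 * k + 1] a)
      (fun k => f^[n + 2 * k] a) (fun k => hnt (2 * k)) (by
        intro k k' z hkk a1 _ _ a4
        have := hmono (show n + 2 * k + 1 < n + 2 * k' by omega)
        simp only at this a1 a4
        linarith)
    have := lt_NN c
    rcases h4 with h4 | h4
    · refine ⟨2 * k + 1, by omega, c, hc, hmc, ?_⟩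
      rw [← Function.iterate_add_apply, add_comm, ← add_assoc]
      omega
    · refine ⟨2 * k, by omega, c, hc, hmc, ?_⟩
      rw [← Function.iterate_add_apply, add_comm]
      omega

end

end Pool.Agent.Lib.MP_b8791a_lc
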