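import Pool.Agent.Lib.MP_b8791a_lc.Order

namespace Pool.Agent.Lib.MP_b8791a_lc

open Classical

def hist (G : List ℕ → ℕ) (n : ℕ) : List ℕ :=
  Nat.rec [] (fun _ L => L ++ [G L]) n

def cv (G : List ℕ → ℕ) (n : ℕ) : ℕ := G (hist G n)

theorem hist_eq (G : List ℕ → ℕ) (n : ℕ) : hist G n = (List.range n).map (cv G) := by
  induction n with
  | zero => rfl
  | succ n ih =>
    rw [List.range_succ, List.map_append, ← ih]
    rfl

theorem hist_length (G : List ℕ → ℕ) (n : ℕ) : (hist G n).length = n := by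
  rw [hist_eq]; simp

theorem hist_getD (G : List ℕ → ℕ) {n i : ℕ} (h : i < n) : (hist G n).getD i 0 = cv G i := by
  rw [hist_eq]; simp [h]

theorem cv_prim {G : List ℕ → ℕ} (hG : Primrec G) : Primrec (cv G) := by
  have : Primrec (hist G) := by
    unfold hist
    exact Primrec.nat_rec₁ [] (Primrec.list_concat.comp Primrec.snd (hG.comp Primrec.snd)).to₂
  exact hG.comp this

section
variable {α : Type} [Primcodable α]

theorem pall {p : α → ℕ → Prop} {f : α → ℕ} (hf : Primrec f)
    (hp : PrimrecPred fun q : α × ℕ => p q.1 q.2) : PrimrecPred fun a => ∀ x < f a, p a x := by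
  have h1 : PrimrecRel fun (x : ℕ) (a : α) => p a x :=
    PrimrecPred.comp hp (Primrec.pair Primrec.snd Primrec.fst)
  exact (h1.forall_mem_list.comp (Primrec.list_range.comp hf) Primrec.id).of_eq (by simp)

theorem pex {p : α → ℕ → Prop} {f : α → ℕ} (hf : Primrec f)
    (hp : PrimrecPred fun q : α × ℕ => p q.1 q.2) : PrimrecPred fun a => ∃ x < f a, p a x := by
  have h1 : PrimrecRel fun (x : ℕ) (a : α) => p a x :=
    PrimrecPred.comp hp (Primrec.pair Primrec.snd Primrec.fst)
  exact (h1.exists_mem_list.comp (Primrec.list_range.comp hf) Primrec.id).of_eq (by simp)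

theorem pimp {p q : α → Prop} (hp : PrimrecPred p) (hq : PrimrecPred q) :
    PrimrecPred fun a => p a → q a :=
  (hp.not.or hq).of_eq (fun a => by tauto)

theorem plt {f g : α → ℕ} (hf : Primrec f) (hg : Primrec g) : PrimrecPred fun a => f a < g a :=
  Primrec.nat_lt.comp hf hg

theorem ple {f g : α → ℕ} (hf : Primrec f) (hg : Primrec g) : PrimrecPred fun a => f a ≤ g a :=
  Primrec.nat_le.comp hf hg

theorem peq {f g : α → ℕ} (hf : Primrec f) (hg : Primrec g) : PrimrecPred fun a => f a = g a :=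
  Primrec.eq.comp hf hg

theorem psucc {f : α → ℕ} (hf : Primrec f) : Primrec fun a => f a + 1 :=
  Primrec.succ.comp hf

theorem prel3 {β : Type} [Primcodable β] {g : β → ℕ → ℕ → Prop}
    (hg : PrimrecPred fun q : β × ℕ × ℕ => g q.1 q.2.1 q.2.2)
    {b : α → β} {u v : α → ℕ} (hb : Primrec b) (hu : Primrec u) (hv : Primrec v) :
    PrimrecPred fun a => g (b a) (u a) (v a) :=
  PrimrecPred.comp hg (hb.pair (hu.pair hv))

theorem prel2 {g : ℕ → ℕ → Prop} (hg : PrimrecRel g)
    {u v : α → ℕ} (hu : Primrec u) (hv : Primrec v) :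
    PrimrecPred fun a => g (u a) (v a) :=
  hg.comp hu hv

end

open Primrec in
theorem stepT_prim {β : Type} [Primcodable β] {A : ℕ → ℕ → Prop} (hA : PrimrecRel A)
    {g : β → ℕ → ℕ → Prop} (hg : PrimrecPred fun q : β × ℕ × ℕ => g q.1 q.2.1 q.2.2) :
    PrimrecPred fun q : β × ℕ × ℕ => stepT A (g q.1) q.2.1 q.2.2 := by
  unfold stepT
  have c0 : Primrec fun q : β × ℕ × ℕ => q.2.1 := fst.comp snd
  have s0 : Primrec fun q : β × ℕ × ℕ => q.2.2 := snd.comp snd
  refine (peq c0 s0).or ((plt c0 s0).and (PrimrecPred.and ?_ (PrimrecPred.and ?_ ?_)))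
  · refine pall c0 (pimp ?_ ?_)
    · exact prel3 hg (fst.comp fst) snd (c0.comp fst)
    · exact prel3 hg (fst.comp fst) snd (s0.comp fst)
  · refine pall c0 (pall (psucc (s0.comp fst)) (pimp ?_ (pimp ?_ ?_)))
    · exact plt (c0.comp (fst.comp fst)) snd
    · exact prel3 hg (fst.comp (fst.comp fst)) (snd.comp fst) snd
    · exact prel3 hg (fst.comp (fst.comp fst)) (snd.comp fst) (c0.comp (fst.comp fst))
  · refine pall c0 (pimp ?_ (pall (psucc snd) (pall (s0.comp (fst.comp fst))
      (pimp ?_ (pimp ?_ (pimp ?_ ?_))))))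
    · exact prel3 hg (fst.comp fst) snd (c0.comp fst)
    · exact ple (c0.comp (fst.comp (fst.comp fst))) snd
    · exact prel3 hg (fst.comp (fst.comp (fst.comp fst))) (c0.comp (fst.comp (fst.comp fst))) snd
    · refine pex snd (PrimrecPred.and ?_ ?_)
      · exact ple (c0.comp (fst.comp (fst.comp (fst.comp fst)))) snd
      · exact prel2 hA (snd.comp (fst.comp fst)) snd
    · refine pex (s0.comp (fst.comp (fst.comp fst))) (PrimrecPred.and ?_ ?_)
      · exact ple (snd.comp fst) snd
      · exact prel2 hA (snd.comp (fst.comp fst)) snd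

theorem stepT_congr {A g g' : ℕ → ℕ → Prop} {c s : ℕ}
    (h : ∀ c' s', Nat.pair s' c' < Nat.pair s c → (g c' s' ↔ g' c' s')) :
    stepT A g c s ↔ stepT A g' c s := by
  unfold stepT
  refine or_congr Iff.rfl (and_congr_right fun hcs => ?_)
  have e1 : ∀ c' < c, ∀ s' ≤ s, (g c' s' ↔ g' c' s') := by
    intro c' hc' s' hs'
    apply h
    rcases Nat.eq_or_lt_of_le hs' with h1 | h1
    · rw [h1]; exact Nat.pair_lt_pair_right _ hc'
    · exact lt_trans (Nat.pair_lt_pair_left _ h1) (Nat.pair_lt_pair_right _ hc')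
  have e2 : ∀ s' < s, (g c s' ↔ g' c s') := fun s' hs' => h _ _ (Nat.pair_lt_pair_left _ hs')
  refine and_congr ?_ (and_congr ?_ ?_)
  · refine forall_congr' fun c' => forall_congr' fun hc' => ?_
    rw [e1 c' hc' c hcs.le, e1 c' hc' s le_rfl]
  · refine forall_congr' fun c' => forall_congr' fun hc' => forall_congr' fun s' =>
      forall_congr' fun hs' => ?_
    rw [e1 c' hc' c hcs.le, e1 c' hc' s' (by omega)]
  · refine forall_congr' fun c' => forall_congr' fun hc' => ?_
    rw [e1 c' hc' c hcs.le]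
    refine forall_congr' fun _ => forall_congr' fun i => forall_congr' fun _ =>
      forall_congr' fun s' => forall_congr' fun hs' => ?_
    rw [e2 s' hs']

theorem exists_T {A : ℕ → ℕ → Prop} (hA : PrimrecRel A) :
    ∃ T : ℕ → ℕ → Prop, PrimrecRel T ∧ ∀ c s, T c s ↔ stepT A T c s := by
  let g : List ℕ → ℕ → ℕ → Prop := fun L c s => L.getD (Nat.pair s c) 0 = 1
  have hg : PrimrecPred fun q : List ℕ × ℕ × ℕ => g q.1 q.2.1 q.2.2 :=
    peq ((Primrec.list_getD 0).comp Primrec.fst (Primrec₂.natPair.comp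
      (Primrec.snd.comp Primrec.snd) (Primrec.fst.comp Primrec.snd))) (Primrec.const 1)
  let G : List ℕ → ℕ := fun L =>
    if stepT A (g L) (Nat.unpair L.length).2 (Nat.unpair L.length).1 then 1 else 0
  have hG : Primrec G := by
    refine Primrec.ite ?_ (Primrec.const 1) (Primrec.const 0)
    exact prel3 (g := fun L c s => stepT A (g L) c s) (stepT_prim hA hg) Primrec.id
      (Primrec.snd.comp (Primrec.unpair.comp Primrec.list_length))
      (Primrec.fst.comp (Primrec.unpair.comp Primrec.list_length))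
  refine ⟨fun c s => cv G (Nat.pair s c) = 1, ?_, ?_⟩
  · exact peq ((cv_prim hG).comp (Primrec₂.natPair.comp Primrec.snd Primrec.fst)) (Primrec.const 1)
  · intro c s
    have : cv G (Nat.pair s c) = if stepT A (g (hist G (Nat.pair s c))) c s then 1 else 0 := by
      simp only [cv, G, hist_length, Nat.unpair_pair]
    simp only [this]
    rw [stepT_congr (g' := fun c s => cv G (Nat.pair s c) = 1)]
    · split_ifs with h <;> simp [h]
    · intro c' s' h
      simp only [g]
      rw [hist_getD G h]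

theorem NN_prim : Primrec NN := by
  unfold NN
  exact psucc (Primrec.nat_mul.comp Primrec.id Primrec.id)

theorem stg_prim : Primrec stg := by
  unfold stg
  have : Primrec fun n : ℕ => Nat.unpair (n - 1) :=
    Primrec.unpair.comp (Primrec.nat_sub.comp Primrec.id (Primrec.const 1))
  exact Primrec.nat_max.comp (Primrec.fst.comp this) (Primrec.snd.comp this)

theorem tgt_prim : Primrec tgt := by
  unfold tgt
  have : Primrec fun n : ℕ => Nat.unpair (n - 1) :=
    Primrec.unpair.comp (Primrec.nat_sub.comp Primrec.id (Primrec.const 1))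
  exact Primrec.nat_min.comp (Primrec.fst.comp this) (Primrec.snd.comp this)

open Primrec in
theorem blocked_prim {β : Type} [Primcodable β] {T : ℕ → ℕ → Prop} (hT : PrimrecRel T)
    {g : β → ℕ → ℕ → Prop} (hg : PrimrecPred fun q : β × ℕ × ℕ => g q.1 q.2.1 q.2.2) :
    PrimrecPred fun q : β × ℕ × ℕ => blocked T (g q.1) q.2.1 q.2.2 := by
  unfold blocked
  have s0 : Primrec fun q : β × ℕ × ℕ => q.2.1 := fst.comp snd
  have x0 : Primrec fun q : β × ℕ × ℕ => q.2.2 := snd.comp snd
  refine pex (NN_prim.comp s0) (PrimrecPred.and ?_ (pall (psucc (s0.comp fst))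
    (pimp ?_ (pimp (PrimrecPred.or ?_ ?_) (pall (NN_prim.comp snd) (PrimrecPred.or ?_ ?_))))))
  · exact prel3 hg (fst.comp fst) (x0.comp fst) snd
  · exact prel2 hT snd (s0.comp (fst.comp fst))
  · exact ple (NN_prim.comp snd) (x0.comp (fst.comp fst))
  · exact ple (NN_prim.comp snd) (snd.comp fst)
  · exact prel3 hg (fst.comp (fst.comp (fst.comp fst))) snd (x0.comp (fst.comp (fst.comp fst)))
  · exact prel3 hg (fst.comp (fst.comp (fst.comp fst))) (snd.comp (fst.comp fst)) snd

theorem blocked_congr {T g g' : ℕ → ℕ → Prop} {s x : ℕ} (hx : x < NN s)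
    (h : ∀ u < NN s, ∀ v < NN s, (g u v ↔ g' u v)) :
    blocked T g s x ↔ blocked T g' s x := by
  unfold blocked
  refine exists_congr fun y => and_congr_right fun hy => and_congr (h x hx y hy) ?_
  refine forall_congr' fun c => forall_congr' fun hc => forall_congr' fun _ =>
    forall_congr' fun _ => forall_congr' fun z => forall_congr' fun hz => ?_
  have hz' : z < NN s := lt_of_lt_of_le hz (NN_mono (by omega))
  rw [h z hz' x hx, h y hy z hz']

theorem parOf_congr {T g g' : ℕ → ℕ → Prop} {n : ℕ} (hn : 0 < n)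
    (h : ∀ u < n, ∀ v < n, (g u v ↔ g' u v)) : parOf T g n = parOf T g' n := by
  unfold parOf
  have h1 := NN_stg_le hn
  have h2 := tgt_le_stg n
  have h3 := lt_NN (stg n)
  rw [blocked_congr (g' := g') (by omega) (fun u hu v hv => h u (by omega) v (by omega))]

theorem pow2_prim : Primrec fun n : ℕ => 2 ^ n :=
  (Primrec₂.unpaired'.1 Nat.Primrec.pow).comp (Primrec.const 2) Primrec.id

theorem pos_lt_iff (P : ℕ → ℕ) (u v : ℕ) :
    (P u : ℚ) / 2 ^ u < (P v : ℚ) / 2 ^ v ↔ P u * 2 ^ v < P v * 2 ^ u := by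
  rw [div_lt_div_iff₀ (by positivity) (by positivity)]
  exact_mod_cast Iff.rfl

theorem exists_pos {T : ℕ → ℕ → Prop} (hT : PrimrecRel T) :
    ∃ pos : ℕ → ℚ, PrimrecRel (fun u v => pos u < pos v) ∧ Function.Injective pos ∧
      (∀ n, 0 < n → pos (parOf T (fun u v => pos u < pos v) n) < pos n) ∧
      (∀ n, 0 < n → ∀ y < n, pos y < pos n →
        pos y ≤ pos (parOf T (fun u v => pos u < pos v) n)) := by
  let g : List ℕ → ℕ → ℕ → Prop := fun L u v => L.getD u 0 * 2 ^ v < L.getD v 0 * 2 ^ u
  have hg : PrimrecPred fun q : List ℕ × ℕ × ℕ => g q.1 q.2.1 q.2.2 :=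
    plt (Primrec.nat_mul.comp ((Primrec.list_getD 0).comp Primrec.fst
        (Primrec.fst.comp Primrec.snd)) (pow2_prim.comp (Primrec.snd.comp Primrec.snd)))
      (Primrec.nat_mul.comp ((Primrec.list_getD 0).comp Primrec.fst
        (Primrec.snd.comp Primrec.snd)) (pow2_prim.comp (Primrec.fst.comp Primrec.snd)))
  have hpar : Primrec fun L : List ℕ => parOf T (g L) L.length := by
    unfold parOf
    refine Primrec.ite ?_ (Primrec.const 0) (tgt_prim.comp Primrec.list_length)
    exact prel3 (g := fun L s x => blocked T (g L) s x) (blocked_prim hT hg) Primrec.id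
      (stg_prim.comp Primrec.list_length) (tgt_prim.comp Primrec.list_length)
  let G : List ℕ → ℕ := fun L =>
    L.getD (parOf T (g L) L.length) 0 * 2 ^ (L.length - parOf T (g L) L.length) + 1
  have hG : Primrec G :=
    psucc (Primrec.nat_mul.comp ((Primrec.list_getD 0).comp Primrec.id hpar)
      (pow2_prim.comp (Primrec.nat_sub.comp Primrec.list_length hpar)))
  let P := cv G
  let pos : ℕ → ℚ := fun n => (P n : ℚ) / 2 ^ n
  have hP : ∀ n, 0 < n → P n = P (parOf T (fun u v => pos u < pos v) n) *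
      2 ^ (n - parOf T (fun u v => pos u < pos v) n) + 1 := by
    intro n hn
    have e : parOf T (g (hist G n)) n = parOf T (fun u v => pos u < pos v) n := by
      apply parOf_congr hn
      intro u hu v hv
      simp only [g, pos]
      rw [hist_getD G hu, hist_getD G hv, pos_lt_iff]
    have : P n = (hist G n).getD (parOf T (g (hist G n)) n) 0 *
        2 ^ (n - parOf T (g (hist G n)) n) + 1 := by
      simp only [P, cv, G, hist_length]
    rw [this, e, hist_getD G (parOf_lt T _ hn)]
  have hscale : ∀ y n, y ≤ n → pos y = ((P y * 2 ^ (n - y) : ℕ) : ℚ) / 2 ^ n := by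
    intro y n h
    obtain ⟨d, rfl⟩ := Nat.exists_eq_add_of_le h
    simp only [pos, Nat.add_sub_cancel_left]
    push_cast
    rw [pow_add]
    field_simp
  have hlt : ∀ n a b : ℕ, ((a : ℚ) / 2 ^ n < (b : ℚ) / 2 ^ n ↔ a < b) := by
    intro n a b
    rw [div_lt_div_iff_of_pos_right (by positivity)]
    exact_mod_cast Iff.rfl
  have hne : ∀ n y, y < n → pos y ≠ pos n := by
    intro n y hy h
    have hn : 0 < n := by omega
    have hpl := parOf_lt T (fun u v => pos u < pos v) hn
    rw [hscale y n hy.le, hscale n n le_rfl, div_left_inj' (by positivity)] at h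
    have h' : P y * 2 ^ (n - y) = P n * 2 ^ (n - n) := by exact_mod_cast h
    rw [Nat.sub_self, pow_zero, mul_one, hP n hn] at h'
    obtain ⟨d, hd⟩ : ∃ d, n - y = d + 1 := ⟨n - y - 1, by omega⟩
    obtain ⟨e, he⟩ : ∃ e, n - parOf T (fun u v => pos u < pos v) n = e + 1 :=
      ⟨n - parOf T (fun u v => pos u < pos v) n - 1, by omega⟩
    rw [hd, he, pow_succ, pow_succ, ← mul_assoc, ← mul_assoc] at h'
    omega
  refine ⟨pos, ?_, ?_, ?_, ?_⟩
  · have hPp : Primrec P := cv_prim hG
    refine PrimrecPred.of_eq (p := fun q : ℕ × ℕ => P q.1 * 2 ^ q.2 < P q.2 * 2 ^ q.1) ?_ ?_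
    · exact plt (Primrec.nat_mul.comp (hPp.comp Primrec.fst) (pow2_prim.comp Primrec.snd))
        (Primrec.nat_mul.comp (hPp.comp Primrec.snd) (pow2_prim.comp Primrec.fst))
    · intro q
      exact (pos_lt_iff P q.1 q.2).symm
  · intro a b hab
    rcases lt_trichotomy a b with h | h | h
    · exact absurd hab (hne b a h)
    · exact h
    · exact absurd hab.symm (hne a b h)
  · intro n hn
    have hpl := parOf_lt T (fun u v => pos u < pos v) hn
    rw [hscale _ n hpl.le, hscale n n le_rfl, hlt, Nat.sub_self, pow_zero, mul_one]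
    conv_rhs => rw [hP n hn]
    omega
  · intro n hn y hy h
    have hpl := parOf_lt T (fun u v => pos u < pos v) hn
    rw [hscale y n hy.le, hscale n n le_rfl, hlt, Nat.sub_self, pow_zero, mul_one, hP n hn] at h
    apply not_lt.1
    rw [hscale _ n hpl.le, hscale y n hy.le, hlt]
    omega

end Pool.Agent.Lib.MP_b8791a_lc
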